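import Pool.Agent.L0h1.F3S.Cen

/-!
# The criterion and the rank form without exceptions
-/

set_option autoImplicit false
set_option maxHeartbeats 4000000
set_option linter.unusedSectionVars false

open scoped Classical

namespace Pool.Agent.L0h1.F3S

open Pool.Agent.L0h1.KD Pool.Agent.L0h1.F3R
open Pool.Agent.L0h86.F3 Pool.Agent.L0h86.F5 Pool.Agent.L0h4.T4
open Pool.Agent.L0h86.F1 (WM AdmM M1 M2)
open Pool.Agent.L0h4.T5 (mC)
open Pool.Agent.TH841.NF.D (Sha)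
open WeierstrassCurve

/-- the descent for `D` -/
theorem desc_M {D : ℕ} (h : AdmM D) (hdet : (mM D).det ≠ 0) : Finite (WM ℚ D).toAffine.Point ∧
    ∀ (x : Sha (WM ℚ D)) (k : ℕ), 2 ^ k • x = 0 → x = 0 := by
  obtain ⟨ϖ, hd⟩ := adm_exists_dt h
  exact Pool.Agent.L0h23.FDE.fin_cr4 Pool.Agent.L0h80.F3.t_GEN Pool.Agent.L0h23.FR.t_SUP
    Pool.Agent.L0h23.FR.t_REC Pool.Agent.L0h61.T3.t_LIN hd (adm_prod h) h.m4
    ((cr_iff hd (adm_prod h) h.m4).2 hdet)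

/-- **the criterion for `D`** -/
theorem tt_M {D : ℕ} (h : AdmM D) :
    (Finite (WM ℚ D).toAffine.Point ∧ ∀ x : Sha (WM ℚ D), x + x = 0 → x = 0) ↔
      (mM D).det ≠ 0 := by
  constructor
  · rintro ⟨h2, h3⟩
    obtain ⟨ϖ, hd⟩ := adm_exists_dt h
    rw [← cr_iff hd (adm_prod h) h.m4]
    by_contra h4
    obtain ⟨y, hy, hy2⟩ := Pool.Agent.L0h4.T3.convM hd (adm_prod h) h.m4 h4 h2
    exact hy (h3 y hy2)
  · intro hc
    obtain ⟨h2, h3⟩ := desc_M h hc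
    refine ⟨h2, fun x hx => h3 x 1 ?_⟩
    rw [pow_one, two_nsmul]
    exact hx

/-- the descent for `-D` -/
theorem desc_N {D : ℕ} (h : AdmM D) (hdet : (mM D).det ≠ 0) : Finite (WN ℚ D).toAffine.Point ∧
    ∀ (x : Sha (WN ℚ D)) (k : ℕ), 2 ^ k • x = 0 → x = 0 := by
  obtain ⟨ϖ, hd⟩ := adm_exists_dt h
  exact Pool.Agent.L0h23.FZE.t_DESN (M2 D) (M1 D) ϖ D hd (adm_prod h) h.m4
    ((cr_iff hd (adm_prod h) h.m4).2 hdet)

/-- **the criterion for `-D`** -/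
theorem tt_N {D : ℕ} (h : AdmM D) :
    (Finite (WN ℚ D).toAffine.Point ∧ ∀ x : Sha (WN ℚ D), x + x = 0 → x = 0) ↔
      (mM D).det ≠ 0 := by
  constructor
  · rintro ⟨h2, h3⟩
    obtain ⟨ϖ, hd⟩ := adm_exists_dt h
    rw [← cr_iff hd (adm_prod h) h.m4]
    by_contra h4
    obtain ⟨y, hy, hy2⟩ := Pool.Agent.L0h61.T4.convN hd (adm_prod h) h.m4 h4 h2
    exact hy (h3 y hy2)
  · intro hc
    obtain ⟨h2, h3⟩ := desc_N h hc
    refine ⟨h2, fun x hx => h3 x 1 ?_⟩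
    rw [pow_one, two_nsmul]
    exact hx

/-- the descent for `-2 m` -/
theorem desc_C {m : ℕ} (h : AdmC m) (hdet : (mC (2 * m)).det ≠ 0) :
    Finite (WC ℚ m).toAffine.Point ∧
    ∀ (x : Sha (WC ℚ m)) (k : ℕ), 2 ^ k • x = 0 → x = 0 := by
  obtain ⟨ϖ, hd⟩ := admC_exists_dt h
  exact Pool.Agent.L0h23.FCE.t_DESC (M2 m) (M1 m) ϖ m hd (admC_prod h)
    ((Pool.Agent.L0h4.T5.cr8_iff hd (admC_prod h)).2 hdet)

/-- **the rank form for `D`** -/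
theorem RZ_M {D : ℕ} (h : AdmM D) (hdet : (mM D).det ≠ 0) : RZ D := by
  by_cases h1 : D = 1
  · subst h1
    obtain ⟨F, g1, g2, g3⟩ := cen_M
    obtain ⟨hprod, -⟩ := Pool.Agent.L0h4.T3.t_DEUR h g2
    exact ⟨F, g1, lfunM h hprod, g3, fin_WM (desc_M h hdet).1⟩
  · exact rank_all h h1 hdet (Or.inl rfl)

/-- **the rank form for `-D`** -/
theorem RZ_N {D : ℕ} (h : AdmM D) (hdet : (mM D).det ≠ 0) : RZ (-D) := by
  by_cases h1 : D = 1
  · subst h1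
    obtain ⟨F, g1, g2, g3⟩ := cen_N
    obtain ⟨hprod, -⟩ := t_DEURN 1 h F g2
    exact ⟨F, g1, lfunN h hprod, g3, fin_WN (desc_N h hdet).1⟩
  · exact rank_all h h1 hdet (Or.inr (Or.inl rfl))

/-- **the rank form for `-2 m`** -/
theorem RZ_C {m : ℕ} (h : AdmC m) (hdet : (mC (2 * m)).det ≠ 0) : RZ (-2 * m) := by
  by_cases h1 : m = 1
  · subst h1
    obtain ⟨F, g1, g2, g3⟩ := cen_C
    obtain ⟨hprod, -⟩ := t_DEURC 1 h F g2
    exact ⟨F, g1, lfunC h hprod, g3, fin_WC (desc_C h hdet).1⟩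
  · exact rank_allC h h1 hdet (Or.inl rfl)

end Pool.Agent.L0h1.F3S
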