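import Pool.Agent.L0h1.F3S.One
import Pool.Agent.L0h1.F3R.TtC

/-!
# The curves `y² = x³ + 1`, `y² = x³ - 1` and `y² = x³ - 8`
-/

set_option autoImplicit false
set_option maxHeartbeats 4000000
set_option linter.unusedSectionVars false

open Filter
open scoped Topology PeriodPair Classical

namespace Pool.Agent.L0h1.F3S

open H667R3 Pool.Agent.W192.HK Pool.Agent.TH936.CM
open Pool.Agent.TH936.PU hiding pf
open Pool.Agent.W192.CM (nu)
open Pool.Agent.Y696 Pool.Agent.Y715.T.Lat Pool.Agent.Y715.Dist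
open Pool.Agent.Y715.T.LF (nu_eq)
open Pool.Agent.L0h86.F3 hiding Bv_eq
open Pool.Agent.L0h86.F5 Pool.Agent.L0h4.T4 Pool.Agent.L0h4.T5
open Pool.Agent.L0h4.T3 (t_PSI t_DEUR)
open Pool.Agent.L0h1.F3R Pool.Agent.L0h1.KD
open Pool.Agent.L0h86.F1 (WM AdmM M1 M2)
open Pool.Agent.TH841.NF.D (Sha)
open Pool.Agent.Y698.SG (exists_val2)

lemma XD_one (I : Ideal eis) : XD 1 I = 1 := by
  unfold XD
  rw [jacobiSym.one_right]
  norm_num

lemma adm1 : AdmM 1 := ⟨squarefree_one, by norm_num, by norm_num⟩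

lemma admC1 : AdmC 1 := ⟨squarefree_one, by norm_num, by norm_num⟩

lemma zero_tor {L : PeriodPair} : Tor L 0 := ⟨1, one_ne_zero, by
  rw [mul_zero]
  exact zero_mem _⟩

/-- **`y² = x³ + 1`** -/
theorem cen_M : ∃ F : ℂ → ℂ, Differentiable ℂ F ∧
    (∀ z : ℂ, 3 / 2 < z.re →
      HasSum (fun J : Ideal eis => psi6 J * XD 1 J * (nm J : ℂ) ^ (-z)) (F z)) ∧ F 1 ≠ 0 := by
  obtain ⟨F, g1, g2, g3⟩ := val1 t_PSI
  refine ⟨F, g1, fun z hz => ?_, fun h0 => ?_⟩
  · simp only [XD_one, mul_one]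
    exact g2 z hz
  · obtain ⟨Ω, hΩ, hC⟩ := exists_cur
    have hL := hC.lat
    have f1 := fin_quot f6_ne
    let _ : Fintype (eis ⧸ (sp (2 * la) : Ideal eis)) := Fintype.ofFinite _
    have g4 := g3 _ Ω hL
    have h1 := sum_ee t_PSI hL (zero_tor (L := _))
    simp only [add_zero, mul_zero] at h1
    rw [h1, h0, map_zero, mul_zero] at g4
    have h2 := F0_ne hC
    have h3 := coe_ne f6_ne
    have h4 := hL.ne
    have h5 : Ω / ((2 * la : eis) : ℂ) * (6 * Fv Ω 0) = 0 := by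
      linear_combination -g4
    exact mul_ne_zero (div_ne_zero h4 h3) (mul_ne_zero (by norm_num) h2) h5

/-- **`y² = x³ - 1`** -/
theorem cen_N : ∃ F : ℂ → ℂ, Differentiable ℂ F ∧
    (∀ z : ℂ, 3 / 2 < z.re →
      HasSum (fun J : Ideal eis => psi6 J * c4I J * XD 1 J * (nm J : ℂ) ^ (-z)) (F z)) ∧
    F 1 ≠ 0 := by
  obtain ⟨F, g1, g2, g3⟩ := val1 t_PS4
  refine ⟨F, g1, fun z hz => ?_, fun h0 => ?_⟩
  · simp only [XD_one, mul_one]
    exact g2 z hz
  · obtain ⟨Ω, hΩ, hC⟩ := exists_cur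
    have hL := hC.lat
    have f1 := fin_quot f12_ne
    let _ : Fintype (eis ⧸ (sp (4 * la) : Ideal eis)) := Fintype.ofFinite _
    have g4 := g3 _ Ω hL
    have h1 := sum_ee4 rfl t_PSI t_PS4 hL (zero_tor (L := _))
    simp only [add_zero, mul_zero] at h1
    rw [h1, h0, map_zero, mul_zero] at g4
    have h2 : F1v Ω 0 ≠ 0 := by
      intro h5
      refine exists_val2 fun Γ _ v hv => ?_
      have h6 := t_EV4 v hv _ Ω hC 1 one_ne_zero isCoprime_one_right ⟨0, by ring⟩ 0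
      have h7 := (h6.unit_iff hv).2 one_ne_zero
      have h8 : Ω * ((0 : eis) : ℂ) / ((1 : eis) : ℂ) = 0 := by
        push_cast
        ring
      rw [h8, h5, zero_div, map_zero] at h7
      exact zero_ne_one h7
    have h3 := coe_ne f12_ne
    have h4 := hL.ne
    have h5 : Ω / ((4 * la : eis) : ℂ) * (6 * F1v Ω 0) = 0 := by
      linear_combination -g4
    exact mul_ne_zero (div_ne_zero h4 h3) (mul_ne_zero (by norm_num) h2) h5

/-- **`y² = x³ - 8`** -/
theorem cen_C : ∃ F : ℂ → ℂ, Differentiable ℂ F ∧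
    (∀ z : ℂ, 3 / 2 < z.re →
      HasSum (fun J : Ideal eis => psi6 J * c8I (chr8 1) J * XD 1 J * (nm J : ℂ) ^ (-z)) (F z)) ∧
    F 1 ≠ 0 := by
  have hM := m8_chr 1
  have hψ := t_PS8 hM.x8
  obtain ⟨F, g1, g2, g3⟩ := val1 hψ
  refine ⟨F, g1, fun z hz => ?_, fun h0 => ?_⟩
  · simp only [XD_one, mul_one]
    exact g2 z hz
  · obtain ⟨Ω, hΩ, hC⟩ := exists_cur
    have hL := hC.lat
    have f1 := fin_quot f24_ne
    let _ : Fintype (eis ⧸ (sp (8 * la) : Ideal eis)) := Fintype.ofFinite _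
    have g4 := g3 _ Ω hL
    have h1 := sum_ee8 hM rfl t_PSI hψ hL (zero_tor (L := _))
    simp only [add_zero, mul_zero] at h1
    rw [h1, h0, map_zero, mul_zero] at g4
    have hs : sm 1 = -1 := if_pos rfl
    have h2 : F2v (sm 1) Ω 0 ≠ 0 := by
      intro h5
      refine exists_val2 fun Γ _ v hv => ?_
      obtain ⟨θ, hθ, hev⟩ := t_EV8 v hv _ Ω hC (-1) 1 (Or.inl ⟨rfl, rfl⟩)
      have h6 := hev 1 one_ne_zero isCoprime_one_right ⟨0, by ring⟩ 0
      have h8 : Ω * ((0 : eis) : ℂ) / ((1 : eis) : ℂ) = 0 := by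
        push_cast
        ring
      have hy := Pool.Agent.L0h1.F5.Yv_le hC hv (n := 1) one_ne_zero isCoprime_one_right
        ⟨0, by ring⟩ 0
      rw [hs] at h5
      rw [h8] at h6 hy
      simp only [mul_zero, h5, add_zero, zero_div, zero_sub] at h6
      rw [Valuation.map_neg] at h6
      have h9 : v ((Yv (Pool.Agent.Y696.hex Ω hΩ) Ω 0 + Yv (Pool.Agent.Y696.hex Ω hΩ) Ω 0) ^ 2) < 1 := by
        rw [map_pow, ← two_mul, map_mul]
        exact pow_lt_one₀ zero_le (mul_lt_one_of_lt_of_le hv hy) two_ne_zero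
      have h10 : v 1 < 1 := by
        have e : (1 : ℂ) = (1 + (Yv (Pool.Agent.Y696.hex Ω hΩ) Ω 0 +
          Yv (Pool.Agent.Y696.hex Ω hΩ) Ω 0) ^ 2) - (Yv (Pool.Agent.Y696.hex Ω hΩ) Ω 0 +
          Yv (Pool.Agent.Y696.hex Ω hΩ) Ω 0) ^ 2 := by ring
        rw [e]
        exact v.map_sub_lt h6 h9
      rw [map_one] at h10
      exact lt_irrefl _ h10
    have h3 := coe_ne f24_ne
    have h4 := hL.ne
    have h5 : Ω / ((8 * la : eis) : ℂ) * (6 * F2v (sm 1) Ω 0) = 0 := by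
      linear_combination -g4
    exact mul_ne_zero (div_ne_zero h4 h3) (mul_ne_zero (by norm_num) h2) h5

end Pool.Agent.L0h1.F3S
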