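import Pool.Agent.L0h4.T5.VnC

/-!
# The central value of the `L`-series of one Hecke character
-/

set_option autoImplicit false
set_option linter.unusedSectionVars false

open Filter
open scoped Topology PeriodPair

namespace Pool.Agent.L0h1.F3S

open H667R3 Pool.Agent.W192.HK Pool.Agent.TH936.CM
open Pool.Agent.TH936.PU hiding pf
open Pool.Agent.W192.CM (nu)
open Pool.Agent.Y696 Pool.Agent.Y715.T.Lat Pool.Agent.Y715.Dist
open Pool.Agent.Y715.T.LF (nu_eq)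
open Pool.Agent.L0h86.F3 hiding Bv_eq

variable {L : PeriodPair} {Ω : ℂ}

/-- the limit of the regularised sums -/
theorem lim_one (hL : IsLat L eis Ω) {f : eis} (hf : f ≠ 0) [Fintype (eis ⧸ sp f)] {e : eis → ℂ}
    (he : Eo f e) : Tendsto (fun δ : ℝ => SS (fun α : eis => e α) δ) (𝓝[>] 0)
      (𝓝 (Ω / f * ∑ y : eis ⧸ sp f, e y.out * Ev Ω (Ω * y.out / f))) := by
  have hf0 := coe_ne hf
  have hΩ := hL.ne
  have hΩn : 0 < Complex.normSq Ω := Complex.normSq_pos.2 hΩ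
  have hqn : 0 < Complex.normSq (f : ℂ) := Complex.normSq_pos.2 hf0
  set δ' : ℝ → ℝ := fun δ => δ * Complex.normSq (f : ℂ) / Complex.normSq Ω with hδ'
  have hδt : Tendsto δ' (𝓝[>] 0) (𝓝[>] 0) := by
    rw [tendsto_nhdsWithin_iff]
    constructor
    · have h7 : Continuous δ' := by fun_prop
      have h8 := (h7.tendsto 0).mono_left (nhdsWithin_le_nhds (s := Set.Ioi 0))
      simpa [hδ'] using h8
    · filter_upwards [self_mem_nhdsWithin] with δ (hδ : 0 < δ)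
      show 0 < δ * Complex.normSq (f : ℂ) / Complex.normSq Ω
      positivity
  have key : ∀ δ : ℝ, 0 < δ → SS (fun α : eis => e α) δ =
      Ω / f * ∑ y : eis ⧸ sp f, e y.out * EE eis Ω (δ' δ) (Ω * y.out / f) := by
    intro δ hδ
    have hs : Summable (fun α : eis => e α * fd δ (α : ℂ)) := by
      have h1 : Summable (fun α : eis => δ⁻¹ * (‖0 + Ω * (α : ℂ)‖ ^ 3)⁻¹ * ‖Ω‖ ^ 3) :=
        ((summ3 hL 0).mul_left δ⁻¹).mul_right _
      refine Summable.of_norm_bounded h1 fun α => ?_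
      rw [norm_mul]
      refine (mul_le_mul (he.bd α) (fd_bound δ hδ _) (norm_nonneg _) zero_le_one).trans ?_
      rw [one_mul, zero_add, norm_mul, mul_pow, mul_inv]
      have h5 : (‖Ω‖ ^ 3)⁻¹ * ‖Ω‖ ^ 3 = 1 := inv_mul_cancel₀ (pow_ne_zero 3 (norm_ne_zero_iff.2 hΩ))
      refine le_of_eq ?_
      calc δ⁻¹ * (‖(α : ℂ)‖ ^ 3)⁻¹ = δ⁻¹ * (‖(α : ℂ)‖ ^ 3)⁻¹ * ((‖Ω‖ ^ 3)⁻¹ * ‖Ω‖ ^ 3) := by
            rw [h5, mul_one]
        _ = _ := by ring
    unfold SS
    exact sum_EEA hL f hf (fun α => e α) (fun x y h => he.per x y h) hs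
  refine Tendsto.congr' (f₁ := fun δ => Ω / f * ∑ y : eis ⧸ sp f,
    e y.out * EE eis Ω (δ' δ) (Ω * y.out / f)) ?_ ?_
  · filter_upwards [self_mem_nhdsWithin] with δ (hδ : 0 < δ)
    exact (key δ hδ).symm
  refine Tendsto.const_mul _ (tendsto_finsetSum _ fun y _ => ?_)
  exact ((ev_lim hL (Tor.of hL hf y.out)).comp hδt).const_mul _

/-- **the value at the centre** -/
theorem val1 {f : eis} {ψ : Ideal eis → ℂ} (hψ : HC 1 (sp f) ψ) :
    ∃ F : ℂ → ℂ, Differentiable ℂ F ∧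
      (∀ z : ℂ, 3 / 2 < z.re → HasSum (fun I : Ideal eis => ψ I * (nm I : ℂ) ^ (-z)) (F z)) ∧
      ∀ [Fintype (eis ⧸ sp f)] (L : PeriodPair) (Ω : ℂ), IsLat L eis Ω →
        (nu eis : ℂ) * (starRingEnd ℂ) (F 1) =
          Ω / f * ∑ y : eis ⧸ sp f, ee ψ y.out * Ev Ω (Ω * y.out / f) := by
  have hf0 : f ≠ 0 := by
    rintro rfl
    exact hψ.ne (by simp)
  have hfin := (lbasic eis om qr).1
  have hne : sp f ≠ ⊥ := by
    rw [Ne, Ideal.span_singleton_eq_bot]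
    exact hf0
  have hS := sys_pid (hfin (sp f) hne)
  obtain ⟨F, g1, g2, g3⟩ := lim_L lbasic lfp lcnt ldec lafe qr hψ hS
  refine ⟨F, g1, g2, ?_⟩
  intro _ L Ω hL
  have he := ee_eo lfp qr hψ
  refine tendsto_nhds_unique g3 ?_
  refine (lim_one hL hf0 he).congr fun δ => ?_
  rw [Finset.sum_singleton]
  have t1 : ψ ⊤ = 1 := by
    have e1 : (⊤ : Ideal eis) = sp 1 := by
      rw [eq_comm, Ideal.span_singleton_eq_top]
      exact isUnit_one
    rw [e1, hψ.princ 1 one_ne_zero (by rw [sub_self]; exact Submodule.zero_mem _)]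
    simp
  have t2 : nm (⊤ : Ideal eis) = 1 := ((lbasic eis om qr).2.2.2.2.2.2.1 ⊤).2 rfl
  rw [t1, one_mul, t2, div_one]
  congr 1
  funext α
  unfold cb ee
  rw [if_pos Submodule.mem_top]

end Pool.Agent.L0h1.F3S
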